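import Pool.Agent.H29.LG.Targets2

set_option autoImplicit false

/-!
# MP_c65535_nt, all radicals, row DSQL: the descent at finitely many primes
-/

namespace Pool.Agent.H67.LG

open NumberField Height Finset Polynomial Pool.Agent.H24.RD Pool.Agent.H23.RDD Pool.Agent.H29.RQ
  Pool.Agent.H29.SX Pool.Agent.H29.LG

private theorem one_le_log {d : ℕ} (hd : 0 < d) : 1 ≤ Real.log (3 * d) := by
  have hd1 : (1 : ℝ) ≤ (d : ℝ) := by exact_mod_cast hd
  rw [Real.le_log_iff_exp_le (by positivity)]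
  have h1 := Real.exp_one_lt_d9
  linarith

private theorem dsq_aux (h0 : T_HB) (hDP : T_DPQL) (F Ω : Type) [Field F] [NumberField F] [Field Ω]
    [CharZero Ω] [Algebra F Ω] [IsAlgClosed Ω] [Algebra.IsAlgebraic F Ω] (r : ℕ) (γ : Fin r → F)
    (hγ : MInd F γ) (S : Finset ℕ) : (∀ p ∈ S, p.Prime) → ∃ (c : ℝ) (C : ℕ), 0 < c ∧
    ∀ d : ℕ, 0 < d → ∃ N0 : ℕ, 0 < N0 ∧ (∀ p : ℕ, p.Prime → p ∣ N0 → p ∈ S) ∧
      c * (N0 : ℝ) ≤ (Real.log (3 * d)) ^ C ∧
      ∀ N K : ℕ, 0 < N → K ∣ N → ∀ α : Ω, RepD F Ω γ N K d α →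
      absLogHeight₁ α * (d * (Real.log (3 * d)) ^ C) < c →
      ∃ N' K' : ℕ, 0 < N' ∧ K' ∣ N' ∧ K' ∣ K ∧ (∀ p ∈ S, ¬ p ∣ N') ∧
        RepD F Ω γ (N0 * N') (N0 * K') d α := by
  classical
  have halg : Algebra.IsAlgebraic ℚ Ω := Algebra.IsAlgebraic.trans ℚ F Ω
  have hh0 : ∀ x : Ω, 0 ≤ absLogHeight₁ x := (h0 Ω).1
  induction S using Finset.induction_on with
  | empty =>
    intro _
    refine ⟨1, 0, one_pos, fun d hd => ⟨1, one_pos, ?_, ?_, ?_⟩⟩
    · intro p hp h1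
      exact absurd (Nat.dvd_one.mp h1) hp.ne_one
    · simp
    intro N K hN hK α hα _
    refine ⟨N, K, hN, hK, dvd_rfl, by simp, ?_⟩
    simpa using hα
  | insert q S hqS ih =>
    intro hS
    obtain ⟨c1, C1, hc1, ih1⟩ := ih (fun p hp => hS p (Finset.mem_insert_of_mem hp))
    have hq : q.Prime := hS q (Finset.mem_insert_self q S)
    obtain ⟨c2, C2, hc2, hDq⟩ := hDP F Ω q hq r γ hγ
    refine ⟨min (c1 * c2) (min c1 c2), C1 + C2,
      lt_min (mul_pos hc1 hc2) (lt_min hc1 hc2), fun d hd => ?_⟩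
    obtain ⟨N0, hN0, hN0S, hN0c, hrep⟩ := ih1 d hd
    obtain ⟨k, hkc, hDk⟩ := hDq d hd
    have hL : 1 ≤ Real.log (3 * d) := one_le_log hd
    have hL0 : 0 ≤ Real.log (3 * d) := zero_le_one.trans hL
    have hd0 : (0 : ℝ) ≤ (d : ℝ) := Nat.cast_nonneg d
    have hqN0 : ¬ q ∣ N0 := fun h => hqS (hN0S q hq h)
    refine ⟨q ^ k * N0, Nat.mul_pos (pow_pos hq.pos k) hN0, ?_, ?_, ?_⟩
    · intro p hp hpd
      rcases (Nat.Prime.dvd_mul hp).mp hpd with h | h
      · have : p = q := (Nat.prime_dvd_prime_iff_eq hp hq).mp (hp.dvd_of_dvd_pow h)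
        rw [this]
        exact Finset.mem_insert_self q S
      · exact Finset.mem_insert_of_mem (hN0S p hp h)
    · have h1 : min (c1 * c2) (min c1 c2) ≤ c1 * c2 := min_le_left _ _
      have h2 : (0 : ℝ) ≤ ((q ^ k * N0 : ℕ) : ℝ) := Nat.cast_nonneg _
      calc min (c1 * c2) (min c1 c2) * ((q ^ k * N0 : ℕ) : ℝ)
          ≤ c1 * c2 * ((q ^ k * N0 : ℕ) : ℝ) := mul_le_mul_of_nonneg_right h1 h2
        _ = (c1 * N0) * (c2 * (q : ℝ) ^ k) := by push_cast; ring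
        _ ≤ Real.log (3 * d) ^ C1 * Real.log (3 * d) ^ C2 := by
          refine mul_le_mul hN0c hkc ?_ (pow_nonneg hL0 _)
          exact mul_nonneg hc2.le (pow_nonneg (Nat.cast_nonneg _) _)
        _ = Real.log (3 * d) ^ (C1 + C2) := (pow_add _ _ _).symm
    intro N K hN hK α hα hh
    have hthr : ∀ (c' : ℝ) (C' : ℕ), C' ≤ C1 + C2 → min (c1 * c2) (min c1 c2) ≤ c' →
        absLogHeight₁ α * (d * (Real.log (3 * d)) ^ C') < c' := by
      intro c' C' hC' hle'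
      refine lt_of_le_of_lt ?_ (hh.trans_le hle')
      refine mul_le_mul_of_nonneg_left ?_ (hh0 α)
      exact mul_le_mul_of_nonneg_left (pow_le_pow_right₀ hL hC') hd0
    obtain ⟨N1, K1, hN1, hKN1, hK1, hS1, hR1⟩ := hrep N K hN hK α hα
      (hthr c1 C1 (by omega) ((min_le_right _ _).trans (min_le_left _ _)))
    have hK1pos : 0 < K1 := Nat.pos_of_dvd_of_pos hKN1 hN1
    obtain ⟨n, N2, hqN2, hN1e⟩ := Nat.exists_eq_pow_mul_and_not_dvd hN1.ne' q hq.ne_one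
    obtain ⟨m, K2, hqK2, hK1e⟩ := Nat.exists_eq_pow_mul_and_not_dvd hK1pos.ne' q hq.ne_one
    have hN2 : 0 < N2 := by
      rcases Nat.eq_zero_or_pos N2 with h | h
      · rw [h] at hqN2
        exact absurd (dvd_zero q) hqN2
      · exact h
    have hmn : m ≤ n := by
      have h1 : q ^ m ∣ q ^ n * N2 := by
        rw [← hN1e]
        exact (Dvd.intro K2 hK1e.symm).trans hKN1
      have h2 : (q ^ m).Coprime N2 :=
        Nat.Coprime.pow_left m ((Nat.Prime.coprime_iff_not_dvd hq).mpr hqN2)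
      exact (Nat.pow_dvd_pow_iff_le_right hq.one_lt).mp (h2.dvd_of_dvd_mul_right h1)
    have hK2N2 : K2 ∣ N2 := by
      have h1 : K2 ∣ q ^ n * N2 := by
        rw [← hN1e]
        exact (Dvd.intro_left (q ^ m) hK1e.symm).trans hKN1
      have h2 : K2.Coprime (q ^ n) :=
        Nat.Coprime.pow_right n ((Nat.Prime.coprime_iff_not_dvd hq).mpr hqK2).symm
      exact h2.dvd_of_dvd_mul_left h1
    have hR2 : RepD F Ω γ (q ^ n * (N0 * N2)) (q ^ m * (N0 * K2)) d α := by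
      have e1 : q ^ n * (N0 * N2) = N0 * N1 := by rw [hN1e]; ring
      have e2 : q ^ m * (N0 * K2) = N0 * K1 := by rw [hK1e]; ring
      rw [e1, e2]
      exact hR1
    have hq2 : ¬ q ∣ N0 * N2 := by
      rw [hq.dvd_mul]
      tauto
    have hR3 := hDk n m (N0 * N2) (N0 * K2) hmn hq2 (Nat.mul_dvd_mul_left N0 hK2N2) α hR2
      (hthr c2 C2 (by omega) ((min_le_right _ _).trans (min_le_right _ _)))
    refine ⟨N2, K2, hN2, hK2N2, ?_, ?_, ?_⟩
    · exact (Dvd.intro_left (q ^ m) hK1e.symm).trans hK1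
    · intro p hp
      rcases Finset.mem_insert.mp hp with h | h
      · rw [h]
        exact hqN2
      · intro h2
        exact hS1 p h (by rw [hN1e]; exact Dvd.dvd.mul_left h2 _)
    · rw [mul_assoc, mul_assoc]
      exact hR3

theorem pf_DSQL (h0 : T_HB) (h : T_DPQL) : T_DSQL := by
  intro F Ω _ _ _ _ _ _ _ r γ hγ S hS
  obtain ⟨c, C, hc, hmain⟩ := dsq_aux h0 h F Ω r γ hγ S hS
  refine ⟨c, C, hc, fun d hd => ?_⟩
  obtain ⟨N0, hN0, _, hN0c, hrep⟩ := hmain d hd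
  exact ⟨N0, hN0, hN0c, hrep⟩

end Pool.Agent.H67.LG
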